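import Pool.Agent.Helper43.RP.Goals

set_option autoImplicit false

open Finset

namespace Pool.Agent.Helper48.RP.BLKS

theorem t : Pool.Agent.Helper43.RP.BLKS := by
  intro m N L C hm hN hC0 hC hL hmono hblk
  have hl : 0 < Real.log (1 / C) := by
    apply Real.log_pos
    rw [lt_div_iff₀ hC0]
    linarith
  set ell := Real.log (1 / C) with hell
  have hm1 : (2 : ℝ) ≤ m := by exact_mod_cast hm
  -- monotonicity
  have mono : ∀ i j : ℕ, i ≤ j → j < N → Real.log (L i) ≤ Real.log (L j) := by
    intro i j hij
    induction j, hij using Nat.le_induction with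
    | base => intro _; exact le_rfl
    | succ j hij ih =>
      intro hj
      have h1 := ih (by omega)
      have h2 : Real.log (L j) ≤ Real.log (L (j + 1)) :=
        Real.log_le_log (hL j (by omega)) (hmono j hj)
      linarith
  -- the constant
  have hlam : ell / 2 ≤ - Real.log (6 * C) := by
    have e1 : Real.log (6 * C) = Real.log 6 + Real.log C := Real.log_mul (by norm_num) hC0.ne'
    have e2 : ell = - Real.log C := by rw [hell, one_div, Real.log_inv]
    have e3 : Real.log 64 ≤ - Real.log C := by
      rw [← Real.log_inv]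
      apply Real.log_le_log (by norm_num)
      rw [le_inv_comm₀ (by norm_num) hC0]
      rw [one_div] at hC
      exact hC
    have e4 : Real.log 6 + Real.log 6 ≤ Real.log 64 := by
      rw [← Real.log_mul (by norm_num) (by norm_num)]
      apply Real.log_le_log (by norm_num) (by norm_num)
    rw [e1]
    linarith
  -- one block
  have blk : ∀ b, b + m ≤ N →
      ((m : ℝ) - 1) / 2 * ell ≤ Real.log (L (b + m - 1)) - Real.log (L b) := by
    intro b hb
    have h1 : ∀ i ∈ range (m - 1), 1 - Real.log (6 * C) - L (b + i) / L (b + i + 1) / (6 * C) ≤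
        Real.log (L (b + (i + 1))) - Real.log (L (b + i)) := by
      intro i hi
      rw [mem_range] at hi
      have p1 : 0 < L (b + i) := hL _ (by omega)
      have p2 : 0 < L (b + i + 1) := hL _ (by omega)
      have hu : 0 < L (b + i) / L (b + i + 1) / (6 * C) := by positivity
      have h2 := Real.log_le_sub_one_of_pos hu
      rw [Real.log_div (by positivity) (by positivity), Real.log_div p1.ne' p2.ne'] at h2
      have e : b + (i + 1) = b + i + 1 := by omega
      rw [e]
      linarith
    have h2 := Finset.sum_le_sum h1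
    rw [Finset.sum_range_sub (fun i => Real.log (L (b + i)))] at h2
    rw [Finset.sum_sub_distrib, Finset.sum_const, card_range, ← Finset.sum_div, nsmul_eq_mul] at h2
    have h3 := hblk b hb
    have h4 : (∑ i ∈ range (m - 1), L (b + i) / L (b + i + 1)) / (6 * C) ≤ (m : ℝ) / 2 := by
      rw [div_le_iff₀ (by positivity)]
      nlinarith
    have e1 : b + (m - 1) = b + m - 1 := by omega
    have e2 : ((m - 1 : ℕ) : ℝ) = (m : ℝ) - 1 := by
      rw [Nat.cast_sub (by omega)]; simp
    rw [e1, e2] at h2
    simp only [add_zero] at h2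
    have h5 : ((m : ℝ) - 1) * (ell / 2) ≤ ((m : ℝ) - 1) * (- Real.log (6 * C)) :=
      mul_le_mul_of_nonneg_left hlam (by linarith)
    nlinarith
  -- all blocks
  have all : ∀ k : ℕ, (k + 1) * m ≤ N →
      ((k : ℝ) + 1) * (((m : ℝ) - 1) / 2 * ell) ≤
        Real.log (L ((k + 1) * m - 1)) - Real.log (L 0) := by
    intro k
    induction k with
    | zero =>
      intro hk
      have h1 := blk 0 (by omega)
      simp only [zero_add, one_mul, Nat.cast_zero] at h1 ⊢
      exact h1
    | succ k ih =>
      intro hk
      have hpos : 1 ≤ (k + 1) * m := by nlinarith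
      have e : (k + 1 + 1) * m = (k + 1) * m + m := by ring
      have h1 := ih (by omega)
      have h2 := blk ((k + 1) * m) (by omega)
      have h3 := mono ((k + 1) * m - 1) ((k + 1) * m) (by omega) (by omega)
      rw [e]
      push_cast
      nlinarith
  have hlog : Real.log (L (N - 1) / L 0) = Real.log (L (N - 1)) - Real.log (L 0) :=
    Real.log_div (hL _ (by omega)).ne' (hL _ (by omega)).ne'
  have hfin : ((N / m : ℕ) : ℝ) * (((m : ℝ) - 1) / 2 * ell) ≤ Real.log (L (N - 1) / L 0) := by
    rw [hlog]
    rcases Nat.eq_zero_or_pos (N / m) with h0 | h0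
    · rw [h0]
      have := mono 0 (N - 1) (by omega) (by omega)
      push_cast
      linarith
    · obtain ⟨k, hk⟩ : ∃ k, N / m = k + 1 := ⟨N / m - 1, by omega⟩
      have h1 : (k + 1) * m ≤ N := by rw [← hk]; exact Nat.div_mul_le_self N m
      have h2 := all k h1
      have hpos : 1 ≤ (k + 1) * m := by nlinarith
      have h3 := mono ((k + 1) * m - 1) (N - 1) (by omega) (by omega)
      rw [hk]
      push_cast
      linarith
  have hNm : (N : ℝ) ≤ m + m * ((N / m : ℕ) : ℝ) := by
    have h1 : N < m * (N / m + 1) := Nat.lt_mul_div_succ N (by omega)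
    have h2 : N ≤ m + m * (N / m) := by nlinarith
    exact_mod_cast h2
  have h4 : (m : ℝ) * ((N / m : ℕ) : ℝ) ≤ 4 * Real.log (L (N - 1) / L 0) / ell := by
    rw [le_div_iff₀ hl]
    have hk0 : (0 : ℝ) ≤ ((N / m : ℕ) : ℝ) := Nat.cast_nonneg _
    have h5 : (0 : ℝ) ≤ ((N / m : ℕ) : ℝ) * ell := mul_nonneg hk0 hl.le
    nlinarith
  linarith

end Pool.Agent.Helper48.RP.BLKS
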